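import Pool.Agent.Lib.MP_688fd0_co.SQ4.IfaceV2
import Pool.Agent.Lib.MP_688fd0_co.SQ3.V.RealA

/-!
Row FLIPB of WORLD (type C1), and the common part of the flips of one path: the windows of a path are windows `FWin`.
-/

set_option autoImplicit false

namespace Pool.Agent.Lib.MP_688fd0_co.SQ4.CV.H59

open Pool.Agent.Lib.MP_688fd0_co.OSF Pool.Agent.Lib.MP_688fd0_co.SQ2 Pool.Agent.Lib.MP_688fd0_co.SQ3
open Pool.Agent.Lib.MP_688fd0_co.SQ4
open SQ2.V (Puz)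
open SQ2.V.Puz (St)
open SQ3.V (Back flipBK)

section win

variable {Q : Type} [Group Q] [DecidableEq Q] {B : Lb.{0, 0} Q} {a b : B.L}
  {eps : Q →* ℤˣ} {D : Subgroup Q} {z : Q} {k : ℕ} {H : HypC B a b eps D z k} {F : Finset Q}

/-- The windows of the realisation are windows `FWin`. -/
theorem fwin_of_ewr {T : Pth H F} {x s₁ s₂ : Q} {r h : ℕ} (ok : T.Ok x s₁ s₂ r h) {X : TW B} {n : ℕ}
    (hX : EWr T.fw.real T.f T.g T.l₀ X n) : FWin H.up (2 * k) F T.t₀ x s₁ s₂ X n where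
  L₀ := by
    rw [hX.L₀]
    ext y
    rw [mem_im]
    constructor
    · intro hy
      obtain ⟨s, hs⟩ := (SQ3.Real.mem_Fr _).1 hy
      have h1 : (H.up.U ^ T.t₀)⁻¹ y = (s : Q) := by
        rw [Equiv.Perm.inv_eq_iff_eq]; exact hs.symm
      rw [h1]
      exact s.2
    · intro hy
      refine (SQ3.Real.mem_Fr _).2 ⟨⟨_, hy⟩, ?_⟩
      exact Equiv.apply_symm_apply _ _
  u₁ := by
    rw [hX.u₁]
    show (H.up.U ^ T.t₀) (T.l₀ : Q) = _
    rw [ok.hx]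
  u₀ := by
    rw [hX.u₀]
    show (H.up.U ^ T.t₀) (T.P.oth T.f T.l₀ : Q) = _
    rw [ok.h₁]
  flat := by
    have h1 := hX.flat
    have h2 : T.fw.real.vt (T.fw.puz.oth T.g T.l₀) (T.fw.real.lev T.f) = (H.up.U ^ T.t₀) s₂ := by
      show (H.up.U ^ T.t₀) (T.P.oth T.g T.l₀ : Q) = _
      rw [ok.h₂]
    rw [h2] at h1
    exact h1
  dvd := hX.dvd

/-- The bound for the heights. -/
theorem lam_bd {σ ρ r k h n : ℕ} (hr : ρ ≤ r)
    (hn : n ≤ (2 * (ρ * σ ^ σ) + 2 + 2) * (2 * k + h) + (2 * (2 * (ρ * σ ^ σ) + 2) + 4) * (2 * k + h)) :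
    n ≤ lamV σ r k h := by
  unfold lamV
  have h1 : ρ * σ ^ σ ≤ r * (σ + 1) ^ σ := Nat.mul_le_mul hr (Nat.pow_le_pow_left (Nat.le_succ _) _)
  have h2 : 1 ≤ (σ + 1) ^ σ := Nat.one_le_pow _ _ (Nat.succ_pos _)
  have h3 : (2 * (ρ * σ ^ σ) + 2 + 2) + (2 * (2 * (ρ * σ ^ σ) + 2) + 4) ≤ 6 * ((r + 1) * (σ + 1) ^ σ + 1) := by
    rw [Nat.add_mul, one_mul]
    omega
  have h4 := Nat.mul_le_mul_right (2 * k + h) h3
  rw [Nat.add_mul] at h4
  omega

/-- The common hypotheses of the flips: the base window, the return, the numbers. -/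
theorem cx_data {T : Pth H F} {x s₁ s₂ : Q} {r h W Λ p : ℕ} {V : Vd B (ZMod p)} {w : Q → ZMod p}
    (hC : Cx T x s₁ s₂ r h W Λ V w) :
    Back T.P T.f T.g T.l₀ ∧ (∀ q, T.fw.real.H q ≤ h) ∧
      (∀ s : {v // v ∈ F}, w (T.fw.real.vt s (T.fw.real.lev T.f)) = w (T.fw.real.g s)) ∧
      (∀ y, (H.up.U ^ (2 * k)) y = z ^ k * y) ∧
      ∃ (E : TW B) (n₀ : ℕ), EWr T.fw.real T.f T.g T.l₀ E n₀ ∧
        n₀ ≤ (2 * (Nat.card (Σ c, T.Rc c) * F.card ^ F.card) + 2 + 2) * (2 * k + h) := by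
  have hb : Back T.P T.f T.g T.l₀ := Back.of_ret hC.ok.ret hC.ok.kg hC.ok.adj
  have hH : ∀ q, T.fw.real.H q ≤ h := fun q => (hC.ok.fam q.1).hle q.2
  refine ⟨hb, hH, ?_, (perC H).per, ?_⟩
  · intro s
    exact hC.wl s s.2 _ (T.fw.lev_lt T.f)
  · obtain ⟨E, n₀, h1, h2⟩ := SQ3.real0 {v // v ∈ F} (Σ c, T.Rc c) T.P Q B H.up T.fw.real (z ^ k) T.f T.g T.l₀ h
      (perC H) hH hC.ok.adj hb.stb
    refine ⟨E, n₀, h1, ?_⟩
    have e1 : Nat.card {v // v ∈ F} = F.card := by simp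
    unfold NW at h2
    rw [e1] at h2
    exact h2

/-- Two versions with different volumes contradict the hypothesis that there is no flip. -/
theorem cx_absurd {T : Pth H F} {x s₁ s₂ : Q} {r h W Λ p : ℕ} {V : Vd B (ZMod p)} {w : Q → ZMod p}
    (hC : Cx T x s₁ s₂ r h W Λ V w) {n₀ : ℕ}
    (hn₀ : n₀ ≤ (2 * (Nat.card (Σ c, T.Rc c) * F.card ^ F.card) + 2 + 2) * (2 * k + h))
    {X X' : TW B} {n : ℕ} (hv : Ver H.up X X' n (T.fw.real.vt (T.P.oth T.g T.l₀) (T.fw.real.lev T.f)))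
    (hX : EWr T.fw.real T.f T.g T.l₀ X n)
    (hn : n ≤ n₀ + (2 * NW {v // v ∈ F} (Σ c, T.Rc c) + 4) * (T.fw.real.e + h)) : dvolw V w X X' = 0 := by
  have e1 : Nat.card {v // v ∈ F} = F.card := by simp
  have e2 : Nat.card (Σ c, T.Rc c) = Fintype.card (Σ c, T.Rc c) := Nat.card_eq_fintype_card
  have h2 : T.fw.real.vt (T.P.oth T.g T.l₀) (T.fw.real.lev T.f) = (H.up.U ^ T.t₀) s₂ := by
    show (H.up.U ^ T.t₀) (T.P.oth T.g T.l₀ : Q) = _
    rw [hC.ok.h₂]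
  rw [h2] at hv
  refine hC.nofl X X' n (le_trans (lam_bd (ρ := Nat.card (Σ c, T.Rc c)) (σ := F.card) ?_ ?_) hC.hΛ)
    (fwin_of_ewr hC.ok hX) hv
  · rw [e2]; exact hC.ok.card
  · refine hn.trans ?_
    unfold NW
    rw [e1]
    exact Nat.add_le_add hn₀ le_rfl

/-- The number of strands of a component is invertible. -/
theorem fact_ne {p : ℕ} (_ : Fact p.Prime) {m : ℕ} (h : m < p) : ((m.factorial : ℕ) : ZMod p) ≠ 0 := by
  intro h0
  rw [ZMod.natCast_eq_zero_iff] at h0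
  exact absurd ((Nat.Prime.dvd_factorial (Fact.out : p.Prime)).1 h0) (by omega)

theorem natCast_ne {p : ℕ} {m : ℕ} (h0 : 0 < m) (h : m < p) : ((m : ℕ) : ZMod p) ≠ 0 := by
  intro h1
  rw [ZMod.natCast_eq_zero_iff] at h1
  exact absurd (Nat.le_of_dvd h0 h1) (by omega)

end win

/-- FLIPB. -/
theorem flipB : FlipBS := by
  intro Q _ _ B a b eps D z k H F T x s₁ s₂ r h W Λ p hp V w hC hw hν c v₀ A hA K hG hS
  classical
  have hk : 0 < k := H.kpos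
  have hbig : 4 * k < p := hC.big
  have h20 : (2 : ZMod p) ≠ 0 := by
    have := natCast_ne (p := p) (m := 2) (by norm_num) (by omega)
    exact_mod_cast this
  obtain ⟨u', d1, d2, d3⟩ := exists_drift V H.ea H.eb (0 : ZMod p) hw h20
  have hν2 : nuW V a b / 2 ≠ 0 := div_ne_zero hν h20
  set V' := evA V eps 0 u' with hV'
  have hwt : ∀ v : Q, V'.wt H.up v = V.chi (rfC eps (B.q a) v) * (nuW V a b / 2) := by
    intro v
    show V'.e v (H.up.up v) = _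
    unfold rfC
    rcases Int.units_eq_one_or (eps v) with h1 | h1
    · rw [if_pos h1]; exact d1 v h1
    · rw [if_neg (by rw [h1]; decide)]; exact d2 v h1
  by_contra hcon
  unfold ChiOn at hcon
  push Not at hcon
  obtain ⟨r₁, hr₁, hne⟩ := hcon
  obtain ⟨hcard, Pb, E, _, hiS, hiR, hK, hWt⟩ := hG
  obtain ⟨s, hs1, ⟨r', hs2, hr'A, hr'K⟩, hs3, hs4, hs5⟩ := hS
  obtain ⟨hb, hH, hwl, hz, Ew, n₀, hE, hn₀⟩ := cx_data hC
  have hrange : ∀ v, v ∈ Set.range E.iS ↔ A v := by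
    intro v
    constructor
    · rintro ⟨u, rfl⟩; rw [hiS]; exact u.2
    · intro hv; exact ⟨⟨v, hv⟩, hiS _⟩
  have : Fintype {v // A v} := Fintype.ofFinite _
  have hfac : ((Fintype.card {v // A v}).factorial : ZMod p) ≠ 0 := by
    refine fact_ne hp ?_
    rw [← Nat.card_eq_fintype_card]
    omega
  obtain ⟨s', r'', v, k1, k2, k3⟩ := flipBK {v // v ∈ F} (Σ c, T.Rc c) {v // A v} {r : T.Rc c // A ((T.X c).x r)} (ZMod p)
    T.P Pb E (fun r => K r.1) (fun v => V'.wt H.up (v : Q)) (fun v => w (v : Q)) T.f s ⟨r', hr'A⟩ hs1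
    (by rw [hs2, hiR]) hs3 hs4
    (by
      have := hs5 (fun v => Classical.propDecidable _)
      intro h0
      apply this
      refine Eq.trans ?_ h0
      refine Finset.sum_congr rfl fun t _ => ?_
      by_cases ht : A (s.2 t)
      · rw [if_pos ht, if_pos ((hrange _).2 ht)]
      · rw [if_neg ht, if_neg fun h => ht ((hrange _).1 h)])
    hK hr'K hfac h20 hWt
    ⟨⟨r₁, hr₁⟩, by
      rw [← E.x, ← E.y, hiR]
      show V'.wt H.up ((T.X c).x r₁ : Q) ≠ V'.wt H.up ((T.X c).y r₁ : Q)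
      rw [hwt, hwt]
      intro h0
      exact hne (mul_right_cancel₀ hν2 h0)⟩
    (T.P.gam (fun v => V'.wt H.up (v : Q)) (fun t : T.P.TokOf T.f => w (t : Q)) (T.P.stb T.f T.g T.l₀) T.f T.l₀)
  have hchi : V.chi (z ^ k) = 1 := by rw [map_pow, hC.al, one_pow]
  have hez : eps (z ^ k) = 1 := by
    have h1 : eps (z⁻¹ * (B.q a * (B.q b)⁻¹)) = 1 := H.leD H.mem
    rw [map_mul, map_mul, map_inv, map_inv, H.ea, H.eb] at h1
    have h2 : eps z = 1 := by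
      have h3 : (-1 : ℤˣ) * (-1)⁻¹ = 1 := by decide
      rw [h3, mul_one, inv_eq_one] at h1
      exact h1
    rw [map_pow, h2, one_pow]
  have hvols := T.fw.vols V' (evA_inv V eps 0 u' hchi hez)
  obtain ⟨X, X', n, g1, g2, g3, g4, g5⟩ := realBEKw (Z := T.fw.real) (ζ := z ^ k) w (f := T.f) (g := T.g) (l₀ := T.l₀)
    (h := h) hz hH hC.ok.adj hb hvols d3 (natCast_ne (p := p) (m := 2 * k) (by omega) (by omega)) hwl hE
    ⟨s', r'', v, k1, k2, k3⟩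
  apply g5
  rw [dvolE_evA V eps 0 u' w g1]
  exact cx_absurd hC hn₀ g1 g2 g4

end Pool.Agent.Lib.MP_688fd0_co.SQ4.CV.H59
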