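import Pool.Agent.Lib.MP_688fd0_co.SQ4.Iface
import Pool.Agent.Lib.MP_688fd0_co.SQ3.H94.Front

/-!
FRONTC: frontiers exist (port of `SQ3/H94/Front.lean` to type C1).
-/

set_option autoImplicit false

namespace Pool.Agent.Lib.MP_688fd0_co.SQ4.H59

open Pool.Agent.Lib.MP_688fd0_co.OSF Pool.Agent.Lib.MP_688fd0_co.SQ2 Pool.Agent.Lib.MP_688fd0_co.SQ3

variable {Q : Type} [Group Q] {B : Lb.{0, 0} Q} {a b : B.L} {eps : Q →* ℤˣ} {D : Subgroup Q} {z : Q} {k : ℕ}

theorem U_one (H : HypC B a b eps D z k) {x : Q} (h : eps x = 1) : H.up.U x = x * B.q a := if_pos h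

theorem U_neg (H : HypC B a b eps D z k) {x : Q} (h : eps x ≠ 1) : H.up.U x = x * (B.q b)⁻¹ := if_neg h

theorem Ui_one (H : HypC B a b eps D z k) {x : Q} (h : eps x = 1) : H.up.U⁻¹ x = x * B.q b := if_pos h

theorem Ui_neg (H : HypC B a b eps D z k) {x : Q} (h : eps x ≠ 1) : H.up.U⁻¹ x = x * (B.q a)⁻¹ := if_neg h

theorem conjD (H : HypC B a b eps D z k) {δ : Q} (h : δ ∈ D) (x : Q) : x⁻¹ * δ * x ∈ D := by
  have h1 := H.nD.conj_mem δ h x⁻¹
  rwa [inv_inv] at h1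

/-- Two vertices of the same sheet have the same sign. -/
theorem eps_sheet (H : HypC B a b eps D z k) {x y : Q} (h : x⁻¹ * y ∈ D) : eps x = eps y := by
  have h1 : eps (x⁻¹ * y) = 1 := H.leD h
  rw [map_mul, map_inv] at h1
  exact inv_mul_eq_one.1 h1

theorem mulD (H : HypC B a b eps D z k) {x y : Q} (h : x⁻¹ * y ∈ D) (g : Q) : (x * g)⁻¹ * (y * g) ∈ D := by
  have h1 := conjD H h g
  have e : (x * g)⁻¹ * (y * g) = g⁻¹ * (x⁻¹ * y) * g := by group
  rwa [e]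

theorem sheet_one (H : HypC B a b eps D z k) {x y : Q} (h : x⁻¹ * y ∈ D) :
    (H.up.U x)⁻¹ * H.up.U y ∈ D := by
  have he := eps_sheet H h
  by_cases h1 : eps x = 1
  · rw [U_one H h1, U_one H (he ▸ h1)]
    exact mulD H h _
  · rw [U_neg H h1, U_neg H (he ▸ h1)]
    exact mulD H h _

theorem sheet_inv (H : HypC B a b eps D z k) {x y : Q} (h : x⁻¹ * y ∈ D) :
    (H.up.U⁻¹ x)⁻¹ * H.up.U⁻¹ y ∈ D := by
  have he := eps_sheet H h
  by_cases h1 : eps x = 1
  · rw [Ui_one H h1, Ui_one H (he ▸ h1)]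
    exact mulD H h _
  · rw [Ui_neg H h1, Ui_neg H (he ▸ h1)]
    exact mulD H h _

/-- The powers of `U` map sheets to sheets. -/
theorem sheet (H : HypC B a b eps D z k) (j : ℤ) : ∀ {x y : Q}, x⁻¹ * y ∈ D →
    ((H.up.U ^ j) x)⁻¹ * (H.up.U ^ j) y ∈ D := by
  induction j with
  | zero => intro x y h; simpa using h
  | succ n ih =>
    intro x y h
    rw [zpow_add_one]
    exact ih (sheet_one H h)
  | pred n ih =>
    intro x y h
    rw [zpow_sub_one]
    exact ih (sheet_inv H h)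

theorem U_zpow_add (H : HypC B a b eps D z k) (i j : ℤ) (x : Q) :
    (H.up.U ^ (i + j)) x = (H.up.U ^ j) ((H.up.U ^ i) x) := by
  rw [add_comm, zpow_add]; rfl

/-- One frontier. -/
theorem one_front (H : HypC B a b eps D z k) (c W : ℕ) (hsep : SepU H.up D c W) (hW : 2 * c ≤ W) (x : Q) :
    ∃ F : Finset Q, FrC H.up D k c W x F := by
  classical
  have hfin : Finite Q := H.fin
  have hfL : Finite B.L := H.finL
  obtain ⟨S, hS, hc⟩ := SQ2.H35.exists_words (B := B) 4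
  obtain ⟨R, hRM, hR0, hRc, hRd⟩ := SQ3.H94.reps (fun (j : ℤ) (x y : Q) => ((H.up.U ^ j) x)⁻¹ * y ∈ D)
    (fun x => by simp) (fun j x y h => by
      have h1 := sheet H (-j) h
      have h2 := D.inv_mem h1
      rw [mul_inv_rev, inv_inv, ← U_zpow_add, add_neg_cancel, zpow_zero] at h2
      exact h2)
    (fun i j x y z h h' => by
      have h1 := sheet H j h
      have h2 := D.mul_mem h1 h'
      rw [← U_zpow_add, mul_assoc, mul_inv_cancel_left] at h2
      exact h2)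
    (S.image (fun l => B.fin x l)) x (Finset.mem_image.2 ⟨[], (hS _).2 (by simp), rfl⟩) c W hW (by
      intro w hw w' hw' j hj1 hj2 h
      obtain ⟨l, hl, rfl⟩ := Finset.mem_image.1 hw
      obtain ⟨l', hl', rfl⟩ := Finset.mem_image.1 hw'
      refine hsep (B.fin x l) (B.rev l ++ l') j ?_ hj1 hj2 ?_
      · have := (hS _).1 hl
        have := (hS _).1 hl'
        rw [List.length_append, SQ2.H35.length_rev]; omega
      · have h1 : ((H.up.U ^ j) (B.fin x l))⁻¹ * B.fin x l' ∈ D := h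
        rwa [SQ2.fin_append, SQ2.fin_rev])
  let F : Finset Q := (Set.toFinite {y : Q | ∃ x ∈ R, x⁻¹ * y ∈ D}).toFinset
  have hF : ∀ y, y ∈ F ↔ ∃ x ∈ R, x⁻¹ * y ∈ D := fun y => Set.Finite.mem_toFinset _
  refine ⟨F, ?_, ?_, (hF _).2 ⟨x, hR0, by simp⟩, ?_, ?_, ?_⟩
  · intro s hs δ hδ
    obtain ⟨y, hy, h⟩ := (hF s).1 hs
    exact (hF _).2 ⟨y, hy, by rw [← mul_assoc]; exact D.mul_mem h hδ⟩
  · intro s hs t ht h
    obtain ⟨y, hy, h1⟩ := (hF s).1 hs
    obtain ⟨y', hy', h2⟩ := (hF _).1 h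
    refine hRd y hy y' hy' t ht ?_
    have h3 := sheet H t h1
    have h4 := D.mul_mem h3 (D.inv_mem h2)
    rw [mul_inv_rev, inv_inv, mul_assoc, mul_inv_cancel_left] at h4
    exact h4
  · intro l hl
    obtain ⟨y, hy, j, hj, h⟩ := hRc _ (Finset.mem_image.2 ⟨l, (hS _).2 hl, rfl⟩)
    refine ⟨j, hj, (hF _).2 ⟨y, hy, ?_⟩⟩
    have := D.inv_mem h
    rwa [mul_inv_rev, inv_inv] at this
  · intro s hs
    obtain ⟨y, hy, h⟩ := (hF s).1 hs
    obtain ⟨l, hl, rfl⟩ := Finset.mem_image.1 (hRM hy)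
    exact ⟨l, (hS _).1 hl, 0, by rw [zpow_zero]; exact h⟩
  · refine (SQ2.H35.card_cosets D F R (fun s hs => (hF s).1 hs)).trans ?_
    refine Nat.mul_le_mul ?_ (Nat.le_of_dvd H.kpos H.card)
    exact (Finset.card_le_card hRM).trans (Finset.card_image_le.trans hc)

end Pool.Agent.Lib.MP_688fd0_co.SQ4.H59

namespace Pool.Agent.Lib.MP_688fd0_co.SQ4

open Pool.Agent.Lib.MP_688fd0_co.OSF Pool.Agent.Lib.MP_688fd0_co.SQ2 Pool.Agent.Lib.MP_688fd0_co.SQ3

/-- FRONT. -/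
theorem front : FrontCS := by
  intro Q _ B a b eps D z k H c W hsep hW x
  exact H59.one_front H c W hsep (by omega) x

end Pool.Agent.Lib.MP_688fd0_co.SQ4
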